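import Pool.Agent.Lib.MP_4a5c06_al.Hedge

set_option autoImplicit false

namespace Pool.Agent.Results.MP_4a5c06_al.FreeProduct

/-- The group `GL_n(R)` of invertible `n × n` matrices. -/
abbrev GLn (n : ℕ) (R : Type) [Ring R] : Type := (Matrix (Fin n) (Fin n) R)ˣ

/-- The elementary subgroup `E_n(R)` of `GL_n(R)`, generated by the matrices `1 + x e_{ij}`, `i ≠ j`. -/
def Elem (n : ℕ) (R : Type) [Ring R] : Subgroup (GLn n R) :=
  Subgroup.closure {t | ∃ i j : Fin n, ∃ x : R, i ≠ j ∧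
    (t : Matrix (Fin n) (Fin n) R) = 1 + Matrix.single i j x}

/-- The subgroup generated by the conjugates `e g e⁻¹`, `e ∈ E`. -/
def ConjSpan {G : Type} [Group G] (E : Subgroup G) (g : G) : Subgroup G :=
  Subgroup.closure {y | ∃ e ∈ E, y = e * g * e⁻¹}

/-- `N` is normalized by `E`. -/
def NormalizedBy {G : Type} [Group G] (E N : Subgroup G) : Prop :=
  ∀ e ∈ E, ∀ x ∈ N, e * x * e⁻¹ ∈ N

/-- The subgroups `A` and `B` generate their free product. -/
def FreeProductOf {G : Type} [Group G] (A B : Subgroup G) : Prop :=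
  Function.Injective (Monoid.Coprod.lift A.subtype B.subtype)

/-- The subgroup `H` of `GL_n(R)` becomes trivial in `GL_n(R/I)`. -/
def TrivialMod {n : ℕ} {R : Type} [Ring R] (I : TwoSidedIdeal R) (H : Subgroup (GLn n R)) : Prop :=
  ∀ h ∈ H, ∀ i j : Fin n,
    (h : Matrix (Fin n) (Fin n) R) i j - (1 : Matrix (Fin n) (Fin n) R) i j ∈ I

/-- There are a ring `R` (of characteristic 2) and an involution `g` in `GL_3(R)` such that
`E_3(R)` and `⟨g⟩` generate their free product in `GL_3(R)`, and the subgroup `N` generated by the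
`E_3(R)`-conjugates of `g` is normalized by `E_3(R)`, meets `E_3(R)` trivially, and satisfies
`[N, E_3(R)] ≠ 1` modulo every proper two-sided ideal `I` of `R`. -/
theorem result :
    ∃ (R : Type) (_ : Ring R) (g : GLn 3 R),
      CharP R 2 ∧ g * g = 1 ∧ Elem 3 R ≠ ⊥ ∧
      FreeProductOf (Elem 3 R) (Subgroup.zpowers g) ∧
      NormalizedBy (Elem 3 R) (ConjSpan (Elem 3 R) g) ∧
      ConjSpan (Elem 3 R) g ⊓ Elem 3 R = ⊥ ∧
      ∀ I : TwoSidedIdeal R, I ≠ ⊤ → ¬ TrivialMod I ⁅ConjSpan (Elem 3 R) g, Elem 3 R⁆ := by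
  have hE : Elem 3 Pool.Agent.Lib.MP_4a5c06_al.Rs =
      Subgroup.closure Pool.Agent.Lib.MP_4a5c06_al.gens := by
    unfold Elem
    congr 1
    ext t
    constructor
    · rintro ⟨i, j, x, hij, ht⟩
      refine ⟨i, j, x, hij, ?_⟩
      rw [ht]
      exact congrArg (1 + ·) (Pool.Agent.Lib.MP_4a5c06_al.single_eq i j x)
    · rintro ⟨i, j, x, hij, ht⟩
      refine ⟨i, j, x, hij, ?_⟩
      rw [ht]
      exact congrArg (1 + ·) (Pool.Agent.Lib.MP_4a5c06_al.single_eq i j x).symm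
  refine ⟨Pool.Agent.Lib.MP_4a5c06_al.Rs, inferInstance, Pool.Agent.Lib.MP_4a5c06_al.g0,
    Pool.Agent.Lib.MP_4a5c06_al.charP_Rs, Pool.Agent.Lib.MP_4a5c06_al.g0_mul_self,
    ?_, ?_, ?_, ?_, ?_⟩
  · rw [hE]
    intro h
    have hmem : Pool.Agent.Lib.MP_4a5c06_al.ge 0 1 ∈
        Subgroup.closure Pool.Agent.Lib.MP_4a5c06_al.gens :=
      Subgroup.subset_closure (Pool.Agent.Lib.MP_4a5c06_al.ge_mem (by decide))
    rw [h, Subgroup.mem_bot] at hmem
    exact Pool.Agent.Lib.MP_4a5c06_al.ge_ne_one (by decide) hmem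
  · rw [hE]
    exact Pool.Agent.Lib.MP_4a5c06_al.free_product
  · intro e he x hx
    unfold ConjSpan at hx ⊢
    induction hx using Subgroup.closure_induction with
    | mem x hx =>
      obtain ⟨f, hf, rfl⟩ := hx
      refine Subgroup.subset_closure ⟨e * f, Subgroup.mul_mem _ he hf, ?_⟩
      group
    | one =>
      rw [mul_one, mul_inv_cancel]
      exact Subgroup.one_mem _
    | mul x y _ _ hx hy =>
      have : e * (x * y) * e⁻¹ = (e * x * e⁻¹) * (e * y * e⁻¹) := by group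
      rw [this]
      exact Subgroup.mul_mem _ hx hy
    | inv x _ hx =>
      have : e * x⁻¹ * e⁻¹ = (e * x * e⁻¹)⁻¹ := by group
      rw [this]
      exact Subgroup.inv_mem _ hx
  · rw [hE, eq_bot_iff]
    rintro x ⟨hxN, hx⟩
    exact Subgroup.mem_bot.2 (Pool.Agent.Lib.MP_4a5c06_al.main_disjoint x hx hxN)
  · rw [hE]
    intro I hI htriv
    obtain ⟨h, hh, i, j, hij⟩ := Pool.Agent.Lib.MP_4a5c06_al.level_ideal I hI
    exact hij (htriv h hh i j)

end Pool.Agent.Results.MP_4a5c06_al.FreeProduct
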